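/-
helper50. Dependent absorption (Lemma DA, for K_CLG (A)(a)).

`r` takes values in an abelian group, `S` is nearly independent of `r` given the context `c`, and
`A₁`, `A₂` are functions of `(S, c)`. If the entropy of `r + A₁` and of `r + A₂` given `c` is at most
that of `r`, up to `e`, then the same holds for `r + A₁ - A₂` (with the SAME `S`), up to
`(M + 3) ^ 2 * e + E / M` for every `M`, where `E` bounds the logarithm of the number of the sums of at
most `M` values of `A₂`.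
-/
import Pool.Agent.H49.Ent

set_option autoImplicit false

namespace Pool.DAB

open Finset Real
open Pool.Agent.H49.Ent

variable {Ω Ω₁ : Type} [Fintype Ω] [Fintype Ω₁] {G σ γ S T : Type}

/-- the information that `r` gives about `X` in the context `c` -/
noncomputable def I (p : Ω → ℝ) (X : Ω → S) (r : Ω → T) (c : Ω → γ) : ℝ :=
  CH p X c - CH p X (fun ω => (r ω, c ω))

section basic

variable {p : Ω → ℝ}

/-- data processing -/
theorem I_mono (hp : ∀ ω, 0 ≤ p ω) {X : Ω → S} {Y : Ω → σ} {r : Ω → T} {c : Ω → γ}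
    (h : Det p (fun ω => (X ω, c ω)) Y) : I p Y r c ≤ I p X r c := by
  have h1 := submod hp (X := fun ω => (X ω, c ω)) (Y := fun ω => (Y ω, (r ω, c ω)))
    (Z := fun ω => (Y ω, c ω)) (W := fun ω => (X ω, (r ω, c ω)))
    (fun ω ω' a b e => Prod.ext (h ω ω' a b e) (Prod.ext_iff.1 e).2)
    (fun ω ω' _ _ e => Prod.ext (Prod.ext_iff.1 e).1 (Prod.ext_iff.1 (Prod.ext_iff.1 e).2).2)
    (fun ω ω' _ _ e => Prod.ext (Prod.ext_iff.1 (Prod.ext_iff.1 e).1).1
      (Prod.ext_iff.1 (Prod.ext_iff.1 e).2).2)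
  unfold I CH
  linarith

/-- conditional subadditivity -/
theorem H_pair (hp : ∀ ω, 0 ≤ p ω) (X : Ω → S) (Y : Ω → T) (c : Ω → γ) :
    H p (fun ω => ((X ω, Y ω), c ω)) + H p c ≤
      H p (fun ω => (X ω, c ω)) + H p (fun ω => (Y ω, c ω)) :=
  submod hp (fun _ _ _ _ e => (Prod.ext_iff.1 e).2) (fun _ _ _ _ e => (Prod.ext_iff.1 e).2)
    (fun _ _ _ _ e => Prod.ext (Prod.ext (Prod.ext_iff.1 (Prod.ext_iff.1 e).1).1
      (Prod.ext_iff.1 (Prod.ext_iff.1 e).2).1) (Prod.ext_iff.1 (Prod.ext_iff.1 e).1).2)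

end basic

/-- `B` and `S` are independent given `(r, c)` -/
structure CI (q : Ω → ℝ) (r : Ω → G) (c : Ω → γ) (B : Ω → G) (S : Ω → σ) : Prop where
  nn : ∀ ω, 0 ≤ q ω
  ind : H q (fun ω => (S ω, (r ω, c ω))) + H q (fun ω => (B ω, (r ω, c ω))) -
      H q (fun ω => (r ω, c ω)) ≤ H q (fun ω => ((S ω, B ω), (r ω, c ω)))

section step

variable {q : Ω → ℝ} {r : Ω → G} {c : Ω → γ} {B : Ω → G} {S : Ω → σ}

theorem CI.fn (h : CI q r c B S) {τ : Type} {A : Ω → τ}
    (hA : Det q (fun ω => (S ω, c ω)) A) :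
    H q (fun ω => (A ω, (r ω, c ω))) + H q (fun ω => (B ω, (r ω, c ω))) -
      H q (fun ω => (r ω, c ω)) ≤ H q (fun ω => ((A ω, B ω), (r ω, c ω))) := by
  have h1 := submod h.nn (X := fun ω => ((A ω, B ω), (r ω, c ω)))
    (Y := fun ω => (S ω, (r ω, c ω))) (Z := fun ω => (A ω, (r ω, c ω)))
    (W := fun ω => ((S ω, B ω), (r ω, c ω)))
    (fun ω ω' _ _ e => by
      simp only [Prod.mk.injEq] at e ⊢
      exact ⟨e.1.1, e.2⟩)
    (fun ω ω' a b e => by
      simp only [Prod.mk.injEq] at e ⊢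
      exact ⟨hA ω ω' a b (Prod.ext e.1 e.2.2), e.2⟩)
    (fun ω ω' _ _ e => by
      simp only [Prod.mk.injEq] at e ⊢
      exact ⟨⟨e.2.1, e.1.1.2⟩, e.2.2⟩)
  have h2 := h.ind
  linarith

variable [AddCommGroup G]

/-- near independent form of the inequality of Kaimanovich and Vershik -/
theorem kv (h : CI q r c B S) {A : Ω → G} (hA : Det q (fun ω => (S ω, c ω)) A) :
    CH q (fun ω => r ω + A ω + B ω) c ≤ CH q (fun ω => r ω + B ω) c +
      CH q (fun ω => r ω + A ω) c - CH q r c + I q A r c + I q B r c := by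
  have hp := h.nn
  have h1 := submod hp (X := fun ω => (r ω + B ω, A ω, c ω))
    (Y := fun ω => (r ω + A ω, B ω, c ω)) (Z := fun ω => (r ω + A ω + B ω, c ω))
    (W := fun ω => ((A ω, B ω), (r ω, c ω)))
    (fun ω ω' _ _ e => by
      simp only [Prod.mk.injEq] at e ⊢
      refine ⟨?_, e.2.2⟩
      rw [add_right_comm, e.1, e.2.1, add_right_comm])
    (fun ω ω' _ _ e => by
      simp only [Prod.mk.injEq] at e ⊢
      exact ⟨by rw [e.1, e.2.1], e.2.2⟩)
    (fun ω ω' _ _ e => by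
      simp only [Prod.mk.injEq] at e ⊢
      obtain ⟨⟨e1, e2, e3⟩, e4, e5, -⟩ := e
      refine ⟨⟨e2, e5⟩, ?_, e3⟩
      rw [e2] at e4
      exact add_right_cancel e4)
  have h2 := h.fn hA
  have h3 := H_pair hp (fun ω => r ω + B ω) A c
  have h4 := H_pair hp (fun ω => r ω + A ω) B c
  have e3 : H q (fun ω => ((r ω + B ω, A ω), c ω)) = H q (fun ω => (r ω + B ω, A ω, c ω)) :=
    H_congr hp (fun ω ω' _ _ e => by
      simp only [Prod.mk.injEq] at e ⊢
      exact ⟨⟨e.1, e.2.1⟩, e.2.2⟩) (fun ω ω' _ _ e => by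
      simp only [Prod.mk.injEq] at e ⊢
      exact ⟨e.1.1, e.1.2, e.2⟩)
  have e4 : H q (fun ω => ((r ω + A ω, B ω), c ω)) = H q (fun ω => (r ω + A ω, B ω, c ω)) :=
    H_congr hp (fun ω ω' _ _ e => by
      simp only [Prod.mk.injEq] at e ⊢
      exact ⟨⟨e.1, e.2.1⟩, e.2.2⟩) (fun ω ω' _ _ e => by
      simp only [Prod.mk.injEq] at e ⊢
      exact ⟨e.1.1, e.1.2, e.2⟩)
  unfold I CH
  linarith

/-- the information of a sum -/
theorem I_add (h : CI q r c B S) {A : Ω → G} (hA : Det q (fun ω => (S ω, c ω)) A) :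
    I q (fun ω => B ω + A ω) r c ≤ I q A r c + I q B r c := by
  have hp := h.nn
  have h1 : I q (fun ω => B ω + A ω) r c ≤ I q (fun ω => (A ω, B ω)) r c :=
    I_mono hp (fun ω ω' _ _ e => by
      simp only [Prod.mk.injEq] at e ⊢
      rw [e.1.1, e.1.2])
  have h2 := h.fn hA
  have h3 := H_pair hp A B c
  refine h1.trans ?_
  unfold I CH
  linarith

/-- the triangle inequality with dependent ends -/
theorem tri (h : CI q r c B S) {A₁ A₂ : Ω → G} (h₁ : Det q (fun ω => (S ω, c ω)) A₁)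
    (h₂ : Det q (fun ω => (S ω, c ω)) A₂) :
    CH q (fun ω => r ω + A₁ ω - A₂ ω) c ≤ CH q (fun ω => r ω + A₁ ω + B ω) c +
      CH q (fun ω => B ω + A₂ ω) c - CH q B (fun ω => (r ω, c ω)) := by
  have hp := h.nn
  have h1 := submod hp (X := fun ω => ((r ω + A₁ ω + B ω, B ω + A₂ ω), c ω))
    (Y := fun ω => (r ω + A₁ ω, A₂ ω, c ω)) (Z := fun ω => (r ω + A₁ ω - A₂ ω, c ω))
    (W := fun ω => (B ω, (r ω + A₁ ω, A₂ ω, c ω)))
    (fun ω ω' _ _ e => by
      simp only [Prod.mk.injEq] at e ⊢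
      refine ⟨?_, e.2⟩
      have e1 : r ω + A₁ ω - A₂ ω = (r ω + A₁ ω + B ω) - (B ω + A₂ ω) := by abel
      have e2 : r ω' + A₁ ω' - A₂ ω' = (r ω' + A₁ ω' + B ω') - (B ω' + A₂ ω') := by abel
      rw [e1, e2, e.1.1, e.1.2])
    (fun ω ω' _ _ e => by
      simp only [Prod.mk.injEq] at e ⊢
      exact ⟨by rw [e.1, e.2.1], e.2.2⟩)
    (fun ω ω' _ _ e => by
      simp only [Prod.mk.injEq] at e ⊢
      obtain ⟨⟨⟨e1, e2⟩, e3⟩, e4, e5, e6⟩ := e
      refine ⟨?_, e4, e5, e6⟩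
      rw [e4] at e1
      exact add_left_cancel e1)
  have h2 := H_pair hp (fun ω => r ω + A₁ ω + B ω) (fun ω => B ω + A₂ ω) c
  -- `H(B | r + A₁, A₂, c) ≥ H(B | r, S, c)`
  have h3 := submod hp (X := fun ω => (B ω, (r ω + A₁ ω, A₂ ω, c ω)))
    (Y := fun ω => (S ω, (r ω, c ω))) (Z := fun ω => (r ω + A₁ ω, A₂ ω, c ω))
    (W := fun ω => ((S ω, B ω), (r ω, c ω)))
    (fun ω ω' _ _ e => (Prod.ext_iff.1 e).2)
    (fun ω ω' a b e => by
      simp only [Prod.mk.injEq] at e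
      have e1 := h₁ ω ω' a b (Prod.ext e.1 e.2.2)
      have e2 := h₂ ω ω' a b (Prod.ext e.1 e.2.2)
      simp only [Prod.mk.injEq]
      exact ⟨by rw [e.2.1, e1], e2, e.2.2⟩)
    (fun ω ω' _ _ e => by
      simp only [Prod.mk.injEq] at e ⊢
      exact ⟨⟨e.2.1, e.1.1⟩, e.2.2.1, e.2.2.2⟩)
  have h4 := h.ind
  unfold CH
  linarith

end step

/-- one copy space -/
structure Cp (G γ : Type) where
  Om : Type
  ft : Fintype Om
  q : Om → ℝ
  r : Om → G
  c : Om → γ
  B : Om → G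

attribute [instance] Cp.ft

/-- one more copy of `A` -/
noncomputable def stp [AddCommGroup G] (p : Ω → ℝ) (r : Ω → G) (c : Ω → γ) (A : Ω → G)
    (X : Cp G γ) : Cp G γ where
  Om := X.Om × Ω
  ft := inferInstance
  q := glue X.q p (fun ω => (X.r ω, X.c ω)) (fun ω => (r ω, c ω))
  r := fun w => X.r w.1
  c := fun w => X.c w.1
  B := fun w => X.B w.1 + A w.2

/-- the marginals of a copy space -/
structure Ok (p : Ω → ℝ) (r : Ω → G) (c : Ω → γ) (X : Cp G γ) : Prop where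
  nn : ∀ ω, 0 ≤ X.q ω
  one : ∑ ω, X.q ω = 1
  mar : ∀ z, law X.q (fun ω => (X.r ω, X.c ω)) z = law p (fun ω => (r ω, c ω)) z

section copies

variable {p : Ω → ℝ} {r : Ω → G} {c : Ω → γ} {X : Cp G γ}

/-- the glued law -/
noncomputable def gl (p : Ω → ℝ) (r : Ω → G) (c : Ω → γ) (X : Cp G γ) : X.Om × Ω → ℝ :=
  glue X.q p (fun ω => (X.r ω, X.c ω)) (fun ω => (r ω, c ω))

theorem gl_nn (hp : ∀ ω, 0 ≤ p ω) (hX : Ok p r c X) (w : X.Om × Ω) : 0 ≤ gl p r c X w :=
  glue_nonneg hX.nn hp w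

theorem gl_eq (hp : ∀ ω, 0 ≤ p ω) (hX : Ok p r c X) {w : X.Om × Ω} (hw : 0 < gl p r c X w) :
    X.r w.1 = r w.2 ∧ X.c w.1 = c w.2 := by
  have := ((glue_pos_iff hX.nn hp w).1 hw).2.2
  exact ⟨(Prod.ext_iff.1 this).1, (Prod.ext_iff.1 this).2⟩

theorem gl_fst (hX : Ok p r c X) (Y : X.Om → S) :
    H (gl p r c X) (fun w => Y w.1) = H X.q Y :=
  H_glue_fst hX.nn hX.mar Y

theorem gl_snd (hp : ∀ ω, 0 ≤ p ω) (hX : Ok p r c X) (Y : Ω → S) :
    H (gl p r c X) (fun w => Y w.2) = H p Y :=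
  H_glue_snd hp hX.mar Y

/-- entropies of functions of the new copy, `r` and `c` -/
theorem gl_new (hp : ∀ ω, 0 ≤ p ω) (hX : Ok p r c X) {U : Type} (Y : Ω → S) (f : S → G → γ → U) :
    H (gl p r c X) (fun w => f (Y w.2) (X.r w.1) (X.c w.1)) =
      H p (fun ω => f (Y ω) (r ω) (c ω)) := by
  rw [← gl_snd hp hX (fun ω => f (Y ω) (r ω) (c ω))]
  refine H_congr (gl_nn hp hX) (fun w w' a b e => ?_) (fun w w' a b e => ?_)
  · have e1 := gl_eq hp hX a
    have e2 := gl_eq hp hX b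
    rw [e1.1, e1.2, e2.1, e2.2]
    exact e
  · have e1 := gl_eq hp hX a
    have e2 := gl_eq hp hX b
    rw [e1.1, e1.2, e2.1, e2.2] at e
    exact e

theorem gl_ci (hp : ∀ ω, 0 ≤ p ω) (hX : Ok p r c X) (Sv : Ω → σ) :
    CI (gl p r c X) (fun w => X.r w.1) (fun w => X.c w.1) (fun w => X.B w.1)
      (fun w => Sv w.2) where
  nn := gl_nn hp hX
  ind := by
    have h1 := H_glue_pair (Z₁ := fun ω => (X.r ω, X.c ω)) (Z₂ := fun ω => (r ω, c ω))
      hX.nn hp hX.mar (X := fun ω => (X.B ω, (X.r ω, X.c ω)))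
      (Y := fun ω => (Sv ω, (r ω, c ω))) (fun _ _ _ _ e => (Prod.ext_iff.1 e).2)
      (fun _ _ _ _ e => (Prod.ext_iff.1 e).2)
    have h2 := gl_new hp hX Sv (fun s a b => (s, (a, b)))
    have h3 := gl_fst hX (fun ω => (X.B ω, (X.r ω, X.c ω)))
    have h4 := gl_fst hX (fun ω => (X.r ω, X.c ω))
    have h5 : H (glue X.q p (fun ω => (X.r ω, X.c ω)) (fun ω => (r ω, c ω)))
        (fun w => ((X.B w.1, (X.r w.1, X.c w.1)), (Sv w.2, (r w.2, c w.2)))) ≤
        H (gl p r c X) (fun w => ((Sv w.2, X.B w.1), (X.r w.1, X.c w.1))) :=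
      H_mono (gl_nn hp hX) (fun w w' a b e => by
        have e1 := gl_eq hp hX a
        have e2 := gl_eq hp hX b
        simp only [Prod.mk.injEq] at e ⊢
        refine ⟨⟨e.1.2, e.2.1, e.2.2⟩, e.1.1, ?_, ?_⟩
        · rw [← e1.1, ← e2.1]
          exact e.2.1
        · rw [← e1.2, ← e2.2]
          exact e.2.2)
    rw [h1] at h5
    rw [h2, h3, h4]
    linarith

theorem gl_det (hp : ∀ ω, 0 ≤ p ω) (hX : Ok p r c X) {Sv : Ω → σ} {A : Ω → T}
    (hA : Det p (fun ω => (Sv ω, c ω)) A) :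
    Det (gl p r c X) (fun w => (Sv w.2, X.c w.1)) (fun w => A w.2) := by
  intro w w' a b e
  have e1 := gl_eq hp hX a
  have e2 := gl_eq hp hX b
  refine hA _ _ ((glue_pos_iff hX.nn hp w).1 a).2.1 ((glue_pos_iff hX.nn hp w').1 b).2.1
    (Prod.ext (Prod.ext_iff.1 e).1 ?_)
  change c w.2 = c w'.2
  rw [← e1.2, ← e2.2]
  exact (Prod.ext_iff.1 e).2

theorem gl_I_new (hp : ∀ ω, 0 ≤ p ω) (hX : Ok p r c X) (Y : Ω → S) :
    I (gl p r c X) (fun w => Y w.2) (fun w => X.r w.1) (fun w => X.c w.1) = I p Y r c := by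
  unfold I CH
  rw [gl_new hp hX Y (fun s _ b => (s, b)), gl_new hp hX Y (fun s a b => (s, (a, b))),
    gl_new hp hX Y (fun _ _ b => b), gl_new hp hX Y (fun _ a b => (a, b))]

theorem gl_I_old (hX : Ok p r c X) (Y : X.Om → S) :
    I (gl p r c X) (fun w => Y w.1) (fun w => X.r w.1) (fun w => X.c w.1) =
      I X.q Y X.r X.c := by
  unfold I CH
  rw [gl_fst hX (fun ω => (Y ω, X.c ω)), gl_fst hX (fun ω => (Y ω, (X.r ω, X.c ω))),
    gl_fst hX X.c, gl_fst hX (fun ω => (X.r ω, X.c ω))]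

variable [AddCommGroup G]

theorem ok_stp (hp : ∀ ω, 0 ≤ p ω) (hX : Ok p r c X) (A : Ω → G) : Ok p r c (stp p r c A X) where
  nn := gl_nn hp hX
  one := (sum_glue hX.nn hX.mar).trans hX.one
  mar := fun z => (law_glue_fst hX.nn hX.mar (fun ω => (X.r ω, X.c ω)) z).trans (hX.mar z)

theorem stp_I (hp : ∀ ω, 0 ≤ p ω) (hX : Ok p r c X) {Sv : Ω → σ} {A : Ω → G}
    (hA : Det p (fun ω => (Sv ω, c ω)) A) :
    I (stp p r c A X).q (stp p r c A X).B (stp p r c A X).r (stp p r c A X).c ≤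
      I p A r c + I X.q X.B X.r X.c := by
  have h := I_add (gl_ci hp hX Sv) (gl_det hp hX hA)
  rw [gl_I_new hp hX A, gl_I_old hX X.B] at h
  exact h

theorem stp_r (hp : ∀ ω, 0 ≤ p ω) (hX : Ok p r c X) {Sv : Ω → σ} {A : Ω → G}
    (hA : Det p (fun ω => (Sv ω, c ω)) A) :
    CH (stp p r c A X).q (fun ω => (stp p r c A X).r ω + (stp p r c A X).B ω)
        (stp p r c A X).c ≤
      CH X.q (fun ω => X.r ω + X.B ω) X.c + (CH p (fun ω => r ω + A ω) c - CH p r c) +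
        I p A r c + I X.q X.B X.r X.c := by
  have h := kv (gl_ci hp hX Sv) (gl_det hp hX hA)
  rw [gl_I_new hp hX A, gl_I_old hX X.B] at h
  have e1 : CH (gl p r c X) (fun w => X.r w.1 + X.B w.1) (fun w => X.c w.1) =
      CH X.q (fun ω => X.r ω + X.B ω) X.c := by
    unfold CH
    rw [gl_fst hX (fun ω => (X.r ω + X.B ω, X.c ω)), gl_fst hX X.c]
  have e2 : CH (gl p r c X) (fun w => X.r w.1 + A w.2) (fun w => X.c w.1) =
      CH p (fun ω => r ω + A ω) c := by
    unfold CH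
    rw [gl_new hp hX A (fun s a b => (a + s, b)), gl_new hp hX A (fun _ _ b => b)]
  have e3 : CH (gl p r c X) (fun w => X.r w.1) (fun w => X.c w.1) = CH p r c := by
    unfold CH
    rw [gl_new hp hX A (fun _ a b => (a, b)), gl_new hp hX A (fun _ _ b => b)]
  rw [e1, e2, e3] at h
  have e4 : (fun w : X.Om × Ω => X.r w.1 + A w.2 + X.B w.1) =
      fun w => X.r w.1 + (X.B w.1 + A w.2) := by
    funext w
    abel
  rw [e4] at h
  change CH (gl p r c X) (fun w => X.r w.1 + (X.B w.1 + A w.2)) (fun w => X.c w.1) ≤ _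
  linarith

/-- the copies -/
noncomputable def cp (p : Ω → ℝ) (r : Ω → G) (c : Ω → γ) (A : Ω → G) : ℕ → Cp G γ
  | 0 => ⟨Ω, inferInstance, p, r, c, fun _ => 0⟩
  | k + 1 => stp p r c A (cp p r c A k)

theorem ok_cp (hp : ∀ ω, 0 ≤ p ω) (h1 : ∑ ω, p ω = 1) (A : Ω → G) (k : ℕ) :
    Ok p r c (cp p r c A k) := by
  induction k with
  | zero => exact ⟨hp, h1, fun _ => rfl⟩
  | succ k ih => exact ok_stp hp ih A

theorem cp_val (hp : ∀ ω, 0 ≤ p ω) (h1 : ∑ ω, p ω = 1) (A : Ω → G) (k : ℕ)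
    (w : (cp p r c A k).Om) (hw : 0 < (cp p r c A k).q w) :
    ∃ f : Fin k → Ω, (∀ i, 0 < p (f i)) ∧ (cp p r c A k).B w = ∑ i, A (f i) := by
  induction k with
  | zero => exact ⟨fun i => i.elim0, fun i => i.elim0, by simp [cp]⟩
  | succ k ih =>
    have hok := ok_cp (r := r) (c := c) hp h1 A k
    obtain ⟨w₁, w₂⟩ := w
    have hw' : 0 < gl p r c (cp p r c A k) (w₁, w₂) := hw
    have hpos := (glue_pos_iff hok.nn hp (w₁, w₂)).1 hw'
    obtain ⟨f, hf, hB⟩ := ih w₁ hpos.1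
    refine ⟨Fin.snoc f w₂, fun i => ?_, ?_⟩
    · refine Fin.lastCases ?_ (fun j => ?_) i
      · rw [Fin.snoc_last]
        exact hpos.2.1
      · rw [Fin.snoc_castSucc]
        exact hf j
    · rw [Fin.sum_univ_castSucc]
      simp only [Fin.snoc_last, Fin.snoc_castSucc]
      change (cp p r c A k).B w₁ + A w₂ = _
      rw [hB]

theorem I_nonneg (hp : ∀ ω, 0 ≤ p ω) (X : Ω → S) (r' : Ω → T) (c' : Ω → γ) :
    0 ≤ I p X r' c' := by
  have h := H_pair hp X r' c'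
  have e : H p (fun ω => ((X ω, r' ω), c' ω)) = H p (fun ω => (X ω, (r' ω, c' ω))) :=
    H_congr hp (fun ω ω' _ _ e => by
      simp only [Prod.mk.injEq] at e ⊢
      exact ⟨⟨e.1, e.2.1⟩, e.2.2⟩) (fun ω ω' _ _ e => by
      simp only [Prod.mk.injEq] at e ⊢
      exact ⟨e.1.1, e.1.2, e.2⟩)
  unfold I CH
  linarith

/-- **Lemma DA (dependent absorption).** -/
theorem dep_abs (hp : ∀ ω, 0 ≤ p ω) (h1 : ∑ ω, p ω = 1) {Sv : Ω → σ} {A₁ A₂ : Ω → G}
    (hA₁ : Det p (fun ω => (Sv ω, c ω)) A₁) (hA₂ : Det p (fun ω => (Sv ω, c ω)) A₂)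
    {e E : ℝ} {M : ℕ} (hM : 0 < M) (hI : I p Sv r c ≤ e)
    (hr₁ : CH p (fun ω => r ω + A₁ ω) c ≤ CH p r c + e)
    (hr₂ : CH p (fun ω => r ω + A₂ ω) c ≤ CH p r c + e) (F : Finset G)
    (hF : ∀ k ≤ M, ∀ f : Fin k → Ω, (∀ i, 0 < p (f i)) → ∑ i, A₂ (f i) ∈ F)
    (hE : Real.log F.card ≤ E) :
    CH p (fun ω => r ω + A₁ ω - A₂ ω) c ≤ CH p r c + ((M : ℝ) + 3) ^ 2 * e + E / M := by
  classical
  have he : 0 ≤ e := (I_nonneg hp Sv r c).trans hI
  have hI₁ : I p A₁ r c ≤ e := (I_mono hp hA₁).trans hI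
  have hI₂ : I p A₂ r c ≤ e := (I_mono hp hA₂).trans hI
  set X : ℕ → Cp G γ := fun k => cp p r c A₂ k with hX
  have hok : ∀ k, Ok p r c (X k) := fun k => ok_cp hp h1 A₂ k
  -- the information of the sum
  have hi : ∀ k : ℕ, I (X k).q (X k).B (X k).r (X k).c ≤ k * e := by
    intro k
    induction k with
    | zero =>
      have h0 : I p (fun _ : Ω => (0 : G)) r c ≤ 0 := by
        unfold I CH
        have e1 : H p (fun ω => ((0 : G), c ω)) = H p c :=
          H_congr hp (fun _ _ _ _ e => by rw [e]) (fun _ _ _ _ e => (Prod.ext_iff.1 e).2)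
        have e2 : H p (fun ω => ((0 : G), (r ω, c ω))) = H p (fun ω => (r ω, c ω)) :=
          H_congr hp (fun _ _ _ _ e => Prod.ext rfl e) (fun _ _ _ _ e => (Prod.ext_iff.1 e).2)
        rw [e1, e2]
        linarith
      have h0' : I (X 0).q (X 0).B (X 0).r (X 0).c ≤ 0 := h0
      rw [Nat.cast_zero, zero_mul]
      exact h0'
    | succ k ih =>
      have h2 := stp_I hp (hok k) hA₂
      have h3 : I (X (k + 1)).q (X (k + 1)).B (X (k + 1)).r (X (k + 1)).c ≤
        I p A₂ r c + I (X k).q (X k).B (X k).r (X k).c := h2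
      push_cast
      linarith
  -- the entropy of `r + B`
  have ha : ∀ k : ℕ, CH (X k).q (fun ω => (X k).r ω + (X k).B ω) (X k).c ≤
      CH p r c + ((k : ℝ) ^ 2 + 3 * k) / 2 * e := by
    intro k
    induction k with
    | zero =>
      have h0 : CH p (fun ω => r ω + (0 : G)) c ≤ CH p r c := by
        simp
      have h0' : CH (X 0).q (fun ω => (X 0).r ω + (X 0).B ω) (X 0).c ≤ CH p r c := h0
      have h0'' : CH p r c + (((0 : ℕ) : ℝ) ^ 2 + 3 * ((0 : ℕ) : ℝ)) / 2 * e = CH p r c := by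
        simp
      rw [h0'']
      exact h0'
    | succ k ih =>
      have h2 : CH (X (k + 1)).q (fun ω => (X (k + 1)).r ω + (X (k + 1)).B ω) (X (k + 1)).c ≤
        CH (X k).q (fun ω => (X k).r ω + (X k).B ω) (X k).c +
          (CH p (fun ω => r ω + A₂ ω) c - CH p r c) + I p A₂ r c +
          I (X k).q (X k).B (X k).r (X k).c := stp_r hp (hok k) hA₂
      have h3 := hi k
      push_cast
      nlinarith
  -- the bound for the entropy of the sums
  have hb : ∀ k ≤ M, CH (X k).q (X k).B (X k).c ≤ E := by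
    intro k hk
    have h2 : CH (X k).q (X k).B (X k).c ≤ H (X k).q (X k).B := by
      have := subadd (hok k).nn (hok k).one (X := (X k).B) (Y := (X k).c)
        (W := fun ω => ((X k).B ω, (X k).c ω)) (fun _ _ _ _ e => e)
      unfold CH
      linarith
    have h3 : H (X k).q (X k).B ≤ Real.log F.card := by
      refine H_le_log_card (hok k).nn (hok k).one (X k).B F fun w hw => ?_
      obtain ⟨f, hf, hB⟩ := cp_val hp h1 A₂ k w hw
      have := hF k hk f hf
      rw [← hB] at this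
      exact this
    linarith
  -- pigeonhole
  have hM0 : (0 : ℝ) < M := by exact_mod_cast hM
  obtain ⟨k, hk, hkb⟩ : ∃ k < M, CH (X (k + 1)).q (X (k + 1)).B (X (k + 1)).c ≤
      CH (X k).q (X k).B (X k).c + E / M := by
    by_contra hcon
    push Not at hcon
    have h2 : ∀ k ≤ M, k * (E / M) ≤ CH (X k).q (X k).B (X k).c := by
      intro k
      induction k with
      | zero =>
        intro _
        have : 0 ≤ CH (X 0).q (X 0).B (X 0).c := by
          have := H_mono (hok 0).nn (X := fun ω => ((X 0).B ω, (X 0).c ω)) (Y := (X 0).c)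
            (fun _ _ _ _ e => (Prod.ext_iff.1 e).2)
          unfold CH
          linarith
        simpa using this
      | succ k ih =>
        intro hk
        have h3 := ih (by omega)
        have h4 := hcon k (by omega)
        push_cast
        nlinarith
    have h3 := hcon (M - 1) (by omega)
    have h4 := h2 (M - 1) (by omega)
    have h5 := hb M le_rfl
    have h6 : M - 1 + 1 = M := by omega
    rw [h6] at h3
    have h7 : ((M - 1 : ℕ) : ℝ) = M - 1 := by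
      push_cast [Nat.cast_sub hM]
      ring
    rw [h7] at h4
    have h8 : (M : ℝ) * (E / M) = E := by field_simp
    nlinarith
  -- the end
  set Y := X k with hY
  have hci := gl_ci hp (hok k) Sv
  have ht := tri hci (gl_det hp (hok k) hA₁) (gl_det hp (hok k) hA₂)
  have hkv := kv hci (gl_det hp (hok k) hA₁)
  rw [gl_I_new hp (hok k) A₁, gl_I_old (hok k) (X k).B] at hkv
  have e1 : CH (gl p r c (X k)) (fun w => (X k).r w.1 + (X k).B w.1) (fun w => (X k).c w.1) =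
      CH (X k).q (fun ω => (X k).r ω + (X k).B ω) (X k).c := by
    unfold CH
    rw [gl_fst (hok k) (fun ω => ((X k).r ω + (X k).B ω, (X k).c ω)), gl_fst (hok k) (X k).c]
  have e2 : CH (gl p r c (X k)) (fun w => (X k).r w.1 + A₁ w.2) (fun w => (X k).c w.1) =
      CH p (fun ω => r ω + A₁ ω) c := by
    unfold CH
    rw [gl_new hp (hok k) A₁ (fun s a b => (a + s, b)), gl_new hp (hok k) A₁ (fun _ _ b => b)]
  have e3 : CH (gl p r c (X k)) (fun w => (X k).r w.1) (fun w => (X k).c w.1) = CH p r c := by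
    unfold CH
    rw [gl_new hp (hok k) A₁ (fun _ a b => (a, b)), gl_new hp (hok k) A₁ (fun _ _ b => b)]
  have e4 : CH (gl p r c (X k)) (fun w => (X k).r w.1 + A₁ w.2 - A₂ w.2)
      (fun w => (X k).c w.1) = CH p (fun ω => r ω + A₁ ω - A₂ ω) c := by
    unfold CH
    rw [gl_new hp (hok k) (fun ω => (A₁ ω, A₂ ω)) (fun s a b => (a + s.1 - s.2, b)),
      gl_new hp (hok k) A₁ (fun _ _ b => b)]
  have e5 : CH (gl p r c (X k)) (fun w => (X k).B w.1)
      (fun w => ((X k).r w.1, (X k).c w.1)) =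
      CH (X k).q (X k).B (X k).c - I (X k).q (X k).B (X k).r (X k).c := by
    unfold I CH
    rw [gl_fst (hok k) (fun ω => ((X k).B ω, ((X k).r ω, (X k).c ω))),
      gl_fst (hok k) (fun ω => ((X k).r ω, (X k).c ω))]
    ring
  have e6 : CH (gl p r c (X k)) (fun w => (X k).B w.1 + A₂ w.2) (fun w => (X k).c w.1) =
      CH (X (k + 1)).q (X (k + 1)).B (X (k + 1)).c := rfl
  rw [e1, e2, e3] at hkv
  rw [e4, e5, e6] at ht
  have h3 := hi k
  have h4 := ha k
  have hkM : (k : ℝ) + 1 ≤ M := by exact_mod_cast hk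
  have hk0 : (0 : ℝ) ≤ k := Nat.cast_nonneg k
  have h5 : (((k : ℝ) ^ 2 + 3 * k) / 2 + 2 + 2 * k) * e ≤ ((M : ℝ) + 3) ^ 2 * e := by
    refine mul_le_mul_of_nonneg_right ?_ he
    nlinarith
  nlinarith

end copies

end Pool.DAB
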