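/-
helper50. Dependent absorption: the forms with an arbitrarily small loss per digit.
-/
import Pool.Agent.H50.GND.Dab

set_option autoImplicit false

namespace Pool.DAB

open Finset Real
open Pool.Agent.H49.Ent

variable {Ω : Type} [Fintype Ω] {σ γ : Type} {p : Ω → ℝ}

/-- Lemma DA for vectors of integers of bounded size. -/
theorem dep_abs_box {d : ℕ} (hp : ∀ ω, 0 ≤ p ω) (h1 : ∑ ω, p ω = 1) {r : Ω → Fin d → ℤ}
    {c : Ω → γ} {Sv : Ω → σ} {A₁ A₂ : Ω → Fin d → ℤ}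
    (hA₁ : Det p (fun ω => (Sv ω, c ω)) A₁) (hA₂ : Det p (fun ω => (Sv ω, c ω)) A₂)
    {e : ℝ} {M L : ℕ} (hM : 0 < M) (hI : I p Sv r c ≤ e)
    (hr₁ : CH p (fun ω => r ω + A₁ ω) c ≤ CH p r c + e)
    (hr₂ : CH p (fun ω => r ω + A₂ ω) c ≤ CH p r c + e)
    (hL : ∀ ω, 0 < p ω → ∀ j, |A₂ ω j| ≤ L) :
    CH p (fun ω => r ω + A₁ ω - A₂ ω) c ≤ CH p r c + ((M : ℝ) + 3) ^ 2 * e +
      d * Real.log (2 * (M * L) + 1) / M := by
  classical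
  set F : Finset (Fin d → ℤ) := Fintype.piFinset fun _ => Finset.Icc (-(M * L : ℤ)) (M * L)
    with hF
  refine dep_abs hp h1 hA₁ hA₂ hM hI hr₁ hr₂ F ?_ ?_
  · intro k hk f hf
    rw [hF, Fintype.mem_piFinset]
    intro j
    rw [Finset.mem_Icc, ← abs_le, Finset.sum_apply]
    refine (Finset.abs_sum_le_sum_abs _ _).trans ?_
    have h2 : ∑ i : Fin k, |A₂ (f i) j| ≤ ∑ _i : Fin k, (L : ℤ) :=
      Finset.sum_le_sum fun i _ => hL _ (hf i) j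
    refine h2.trans ?_
    rw [Finset.sum_const, Finset.card_univ, Fintype.card_fin, nsmul_eq_mul]
    exact mul_le_mul_of_nonneg_right (by exact_mod_cast hk) (by positivity)
  · have hc : F.card = (2 * (M * L) + 1) ^ d := by
      rw [hF, Fintype.card_piFinset_const, Int.card_Icc]
      congr 1
      omega
    rw [hc]
    push_cast
    rw [Real.log_pow]

/-- **Lemma DA, small losses.** For all `d`, `C` and `ε' > 0` there are `ε > 0` and `b₀`: if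
`b ≥ b₀`, `Sv` is independent of `r` given `c` up to `ε b`, and `r` absorbs `A₁` and `A₂`
(functions of `Sv` and `c`) up to `ε b`, then it absorbs `A₁ - A₂` up to `ε' b`. -/
theorem dep_abs_eps (d C : ℕ) {ε' : ℝ} (hε' : 0 < ε') : ∃ ε : ℝ, 0 < ε ∧ ∃ b₀ : ℕ,
    ∀ {Ω γ σ : Type} [Fintype Ω] {p : Ω → ℝ}, (∀ ω, 0 ≤ p ω) → ∑ ω, p ω = 1 →
    ∀ {r : Ω → Fin d → ℤ} {c : Ω → γ} {Sv : Ω → σ} {A₁ A₂ : Ω → Fin d → ℤ} {b : ℕ}, b₀ ≤ b →
      Det p (fun ω => (Sv ω, c ω)) A₁ → Det p (fun ω => (Sv ω, c ω)) A₂ →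
      I p Sv r c ≤ ε * b →
      CH p (fun ω => r ω + A₁ ω) c ≤ CH p r c + ε * b →
      CH p (fun ω => r ω + A₂ ω) c ≤ CH p r c + ε * b →
      (∀ ω, 0 < p ω → ∀ j, |A₂ ω j| ≤ 2 ^ (C * b)) →
      CH p (fun ω => r ω + A₁ ω - A₂ ω) c ≤ CH p r c + ε' * b := by
  set M : ℕ := ⌈2 * d * (C + 1) / ε'⌉₊ + 1 with hM
  have hM0 : 0 < M := by omega
  have hM1 : (0 : ℝ) < M := by exact_mod_cast hM0
  have hMd : 2 * d * (C + 1) / ε' ≤ M := by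
    rw [hM]
    push_cast
    have := Nat.le_ceil (2 * (d : ℝ) * (C + 1) / ε')
    linarith
  refine ⟨ε' / (2 * ((M : ℝ) + 3) ^ 2), by positivity, ⌈Real.log (3 * M)⌉₊, ?_⟩
  intro Ω γ σ _ p hp h1 r c Sv A₁ A₂ b hb hA₁ hA₂ hI hr₁ hr₂ hL
  have h := dep_abs_box hp h1 hA₁ hA₂ hM0 hI hr₁ hr₂ (L := 2 ^ (C * b))
    (fun ω hω j => by
      have := hL ω hω j
      exact_mod_cast this)
  refine h.trans ?_
  have hb' : Real.log (3 * M) ≤ b := (Nat.le_ceil _).trans (by exact_mod_cast hb)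
  have e1 : ((M : ℝ) + 3) ^ 2 * (ε' / (2 * ((M : ℝ) + 3) ^ 2) * b) = ε' / 2 * b := by
    field_simp
  have e2 : Real.log (2 * ((M : ℝ) * ((2 ^ (C * b) : ℕ) : ℝ)) + 1) ≤ (C + 1) * b := by
    have h2 : (2 : ℝ) * ((M : ℝ) * ((2 ^ (C * b) : ℕ) : ℝ)) + 1 ≤
        3 * M * 2 ^ (C * b) := by
      push_cast
      have h3 : (1 : ℝ) ≤ 2 ^ (C * b) := one_le_pow₀ (by norm_num)
      have h4 : (1 : ℝ) ≤ M := by exact_mod_cast hM0
      nlinarith [mul_le_mul h4 h3 (by norm_num) (by positivity)]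
    have h3 : Real.log (3 * M * 2 ^ (C * b)) = Real.log (3 * M) + C * b * Real.log 2 := by
      rw [Real.log_mul (by positivity) (by positivity), Real.log_pow]
      push_cast
      ring
    have h4 : Real.log 2 ≤ 1 := by
      have := Real.log_le_sub_one_of_pos (show (0 : ℝ) < 2 by norm_num)
      linarith
    have h5 : (0 : ℝ) ≤ (C : ℝ) * b := by positivity
    refine (Real.log_le_log (by positivity) h2).trans ?_
    rw [h3]
    nlinarith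
  have e3 : (d : ℝ) * Real.log (2 * ((M : ℝ) * ((2 ^ (C * b) : ℕ) : ℝ)) + 1) / M ≤
      ε' / 2 * b := by
    have h2 : (d : ℝ) * Real.log (2 * ((M : ℝ) * ((2 ^ (C * b) : ℕ) : ℝ)) + 1) ≤
        d * ((C + 1) * b) := mul_le_mul_of_nonneg_left e2 (Nat.cast_nonneg d)
    rw [div_le_iff₀ hM1]
    refine h2.trans ?_
    rw [div_le_iff₀ hε'] at hMd
    have h3 : (0 : ℝ) ≤ b := Nat.cast_nonneg b
    nlinarith
  rw [e1]
  linarith

/-- **Second differences.** -/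
theorem dep_abs_four (d C : ℕ) {ε' : ℝ} (hε' : 0 < ε') : ∃ ε : ℝ, 0 < ε ∧ ∃ b₀ : ℕ,
    ∀ {Ω γ σ : Type} [Fintype Ω] {p : Ω → ℝ}, (∀ ω, 0 ≤ p ω) → ∑ ω, p ω = 1 →
    ∀ {r : Ω → Fin d → ℤ} {c : Ω → γ} {Sv : Ω → σ} {A : Fin 4 → Ω → Fin d → ℤ} {b : ℕ},
      b₀ ≤ b → (∀ i, Det p (fun ω => (Sv ω, c ω)) (A i)) →
      I p Sv r c ≤ ε * b →
      (∀ i, CH p (fun ω => r ω + A i ω) c ≤ CH p r c + ε * b) →
      (∀ i ω, 0 < p ω → ∀ j, |A i ω j| ≤ 2 ^ (C * b)) →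
      CH p (fun ω => r ω + ((A 0 ω - A 1 ω) - (A 2 ω - A 3 ω))) c ≤ CH p r c + ε' * b := by
  obtain ⟨ε₁, hε₁, b₁, h₁⟩ := dep_abs_eps d (C + 1) hε'
  obtain ⟨ε₂, hε₂, b₂, h₂⟩ := dep_abs_eps d C hε₁
  refine ⟨min ε₁ ε₂, lt_min hε₁ hε₂, max 1 (max b₁ b₂), ?_⟩
  intro Ω γ σ _ p hp h1 r c Sv A b hb hA hI hr hL
  have hb1 : 1 ≤ b := (le_max_left _ _).trans hb
  have hbb₁ : b₁ ≤ b := (le_max_left _ _).trans ((le_max_right _ _).trans hb)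
  have hbb₂ : b₂ ≤ b := (le_max_right _ _).trans ((le_max_right _ _).trans hb)
  have hb0 : (0 : ℝ) ≤ b := Nat.cast_nonneg b
  have m₁ : min ε₁ ε₂ * b ≤ ε₁ * b := mul_le_mul_of_nonneg_right (min_le_left _ _) hb0
  have m₂ : min ε₁ ε₂ * b ≤ ε₂ * b := mul_le_mul_of_nonneg_right (min_le_right _ _) hb0
  have hd : ∀ i j, Det p (fun ω => (Sv ω, c ω)) (fun ω => A i ω - A j ω) := by
    intro i j ω ω' a b e
    change A i ω - A j ω = A i ω' - A j ω'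
    rw [hA i ω ω' a b e, hA j ω ω' a b e]
  have k₁ := h₂ hp h1 hbb₂ (hA 0) (hA 1) (hI.trans m₂) ((hr 0).trans (by linarith))
    ((hr 1).trans (by linarith)) (hL 1)
  have k₂ := h₂ hp h1 hbb₂ (hA 2) (hA 3) (hI.trans m₂) ((hr 2).trans (by linarith))
    ((hr 3).trans (by linarith)) (hL 3)
  have f₁ : (fun ω => r ω + A 0 ω - A 1 ω) = fun ω => r ω + (A 0 ω - A 1 ω) := by
    funext ω
    abel
  have f₂ : (fun ω => r ω + A 2 ω - A 3 ω) = fun ω => r ω + (A 2 ω - A 3 ω) := by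
    funext ω
    abel
  rw [f₁] at k₁
  rw [f₂] at k₂
  have k₃ := h₁ hp h1 hbb₁ (hd 0 1) (hd 2 3) (hI.trans m₁) k₁ k₂ (fun ω hω j => by
    have l₁ := hL 2 ω hω j
    have l₂ := hL 3 ω hω j
    have l₃ : |(A 2 ω - A 3 ω) j| ≤ |A 2 ω j| + |A 3 ω j| := abs_sub _ _
    have l₄ : (2 : ℤ) * 2 ^ (C * b) ≤ 2 ^ ((C + 1) * b) := by
      rw [← pow_succ']
      exact pow_le_pow_right₀ (by norm_num) (by nlinarith)
    linarith)
  have f₃ : (fun ω => r ω + (A 0 ω - A 1 ω) - (A 2 ω - A 3 ω)) =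
      fun ω => r ω + ((A 0 ω - A 1 ω) - (A 2 ω - A 3 ω)) := by
    funext ω
    abel
  rw [f₃] at k₃
  exact k₃

end Pool.DAB
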